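import Mathlib
import Pool.Agent.H47.SIC.PrimePower

/-!
# Subsystems of maximal ETFs whose phases are congruent to a sign modulo a place
-/

set_option autoImplicit false

namespace Pool.Agent.H61.SIC

open Matrix Pool.Agent.H47.SIC

variable {ι : Type*} [DecidableEq ι] [Fintype ι] {d : ℕ} {x : ι → EuclideanSpace ℂ (Fin d)}

/-- phases congruent to `η = ±1` and a shifted matrix of rank at most `d` -/
theorem eta_congr (hx : IsSystem d x) (hn : d + 2 ≤ Fintype.card ι) (V : ValuationSubring ℂ)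
    (o : ι) (η : ℂ) (hη : η * η = 1) (hηV : η ∈ V) (t : ℂ)
    (hrank : (S x o + t • (1 : Matrix ι ι ℂ)).rank ≤ d)
    (hph : ∀ j k, o ≠ j → j ≠ k → k ≠ o → η * ph x o j k - 1 ∈ V.nonunits) :
    η * t - 1 ∈ V.nonunits := by
  classical
  by_contra hc
  have hc0 : η * t - 1 ≠ 0 := by
    intro h0
    apply hc
    rw [h0]
    exact V.nonunits.zero_mem
  have hinv : (η * t - 1)⁻¹ ∈ V := by
    by_contra h3
    apply hc
    rw [ValuationSubring.mem_nonunits_iff_or]
    exact Or.inr h3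
  let D : Matrix ι ι ℂ := Matrix.diagonal fun j => if j = o then η else 1
  let B : Matrix ι ι ℂ := η • (D * (S x o + t • (1 : Matrix ι ι ℂ)) * D)
  have hB : ∀ j k, B j k = η * ((if j = o then η else 1) *
      (S x o + t • (1 : Matrix ι ι ℂ)) j k * (if k = o then η else 1)) := by
    intro j k
    simp only [B, D, Matrix.smul_apply, smul_eq_mul, Matrix.mul_diagonal, Matrix.diagonal_mul]
  have hBrank : B.rank ≤ d := by
    have h1 : B = D * (η • ((S x o + t • (1 : Matrix ι ι ℂ)) * D)) := by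
      simp only [B]
      rw [Matrix.mul_smul, Matrix.mul_assoc]
    rw [h1]
    refine (Matrix.rank_mul_le_right _ _).trans ?_
    rw [← Matrix.mul_smul]
    exact (Matrix.rank_mul_le_left _ _).trans hrank
  have h1 := corank_le_one V (η * t - 1) hc0 B (by
      intro i
      rw [hB, Matrix.add_apply, S_diag, Matrix.smul_apply, Matrix.one_apply_eq]
      simp only [smul_eq_mul, mul_one, zero_add]
      by_cases hi : i = o
      · rw [if_pos hi]
        linear_combination η * t * hη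
      · rw [if_neg hi]; ring) (by
      intro i j hij
      rw [hB, Matrix.add_apply, Matrix.smul_apply, Matrix.one_apply_ne hij]
      simp only [smul_eq_mul, mul_zero, add_zero]
      rw [div_eq_inv_mul]
      apply mul_mem_nonunits hinv
      rcases S_entry hx o i j with ⟨h, -⟩ | ⟨-, h2, h⟩ | ⟨-, h2, h3, h⟩
      · exact absurd h hij
      · rw [h]
        rcases h2 with h2 | h2
        · rw [if_pos h2, if_neg (by rintro rfl; exact hij h2)]
          have : η * (η * 1 * 1) - 1 = 0 := by linear_combination hη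
          rw [this]; exact V.nonunits.zero_mem
        · rw [if_pos h2, if_neg (by rintro rfl; exact hij h2.symm)]
          have : η * (1 * 1 * η) - 1 = 0 := by linear_combination hη
          rw [this]; exact V.nonunits.zero_mem
      · rw [h, if_neg h2.symm, if_neg h3]
        have : η * (1 * ph x o i j * 1) - 1 = η * ph x o i j - 1 := by ring
        rw [this]
        exact hph i j h2 hij h3)
  omega

/-- the conjugate of the Gram matrix -/
theorem rank_conj (hx : IsSystem d x) (K : Subfield ℂ) (hs : sq1 d ∉ K)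
    (hK : ∀ i j k, i ≠ j → j ≠ k → k ≠ i → ph x i j k ∈ K) (o : ι) :
    (S x o + (-sq1 d) • (1 : Matrix ι ι ℂ)).rank ≤ d := by
  classical
  have hd1 : (sq1 d) ^ 2 ∈ K := by
    rw [sq1_sq]
    exact K.add_mem (natCast_mem K d) K.one_mem
  have hS := S_isHermitian x o
  have hSK : ∀ i j, S x o i j ∈ K := by
    intro i j
    rcases S_entry hx o i j with ⟨-, h⟩ | ⟨-, -, h⟩ | ⟨h1, h2, h3, h⟩
    · rw [h]; exact K.zero_mem
    · rw [h]; exact K.one_mem
    · rw [h]; exact hK _ _ _ h2 h1 h3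
  set s : ℝ := Real.sqrt ((d : ℝ) + 1) with hsdef
  have hcs : sq1 d = (s : ℂ) := rfl
  have hsym := card_eigen_symm K s (by rw [← hcs]; exact hs) (by rw [← hcs]; exact hd1) hS hSK
  have hrank := rank_S_add_le hx o
  rw [hcs, rank_add s hS, Fintype.card_subtype] at hrank
  have e0 : (-sq1 d) = ((-s : ℝ) : ℂ) := by rw [hcs]; push_cast; ring
  rw [e0, rank_add (-s) hS, Fintype.card_subtype]
  have h1 : (Finset.univ.filter (fun i => hS.eigenvalues i + s ≠ 0)).card +
      (Finset.univ.filter (fun i => ¬ (hS.eigenvalues i + s ≠ 0))).card = Fintype.card ι := by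
    rw [Finset.card_filter_add_card_filter_not]
    rfl
  have h2 : (Finset.univ.filter (fun i => hS.eigenvalues i + -s ≠ 0)).card +
      (Finset.univ.filter (fun i => ¬ (hS.eigenvalues i + -s ≠ 0))).card = Fintype.card ι := by
    rw [Finset.card_filter_add_card_filter_not]
    rfl
  have h3 : (Finset.univ.filter (fun i => ¬ (hS.eigenvalues i + s ≠ 0))).card =
      (Finset.univ.filter (fun i => ¬ (hS.eigenvalues i + -s ≠ 0))).card := by
    have e1 : (Finset.univ.filter (fun i => ¬ (hS.eigenvalues i + s ≠ 0))) =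
        (Finset.univ.filter (fun i => hS.eigenvalues i = -s)) := by
      ext i
      simp only [Finset.mem_filter, Finset.mem_univ, true_and, not_not]
      constructor <;> intro h <;> linarith
    have e2 : (Finset.univ.filter (fun i => ¬ (hS.eigenvalues i + -s ≠ 0))) =
        (Finset.univ.filter (fun i => hS.eigenvalues i = s)) := by
      ext i
      simp only [Finset.mem_filter, Finset.mem_univ, true_and, not_not]
      constructor <;> intro h <;> linarith
    rw [e1, e2, hsym]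
  omega

/-- `d + 1` is a square if its root is in the field of `2 p ^ a`-th roots of unity, `p ∣ d` -/
theorem isSquare_of_mem {p a : ℕ} (hp : p.Prime) (hpd : p ∣ d) {ζ : ℂ}
    (hζ : IsPrimitiveRoot ζ (2 * p ^ a))
    (h1 : sq1 d ∈ IntermediateField.adjoin ℚ ({ζ} : Set ℂ)) : IsSquare (d + 1) := by
  obtain ⟨m, D, hDm, hD⟩ := Nat.sq_mul_squarefree (d + 1)
  have hDm' : d + 1 = m * D ^ 2 := by rw [← hDm]; ring
  have hn : 0 < 2 * p ^ a := by have := pow_pos hp.pos a; omega
  have hD0 : (D : ℂ) ≠ 0 := by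
    intro h0
    have : D = 0 := by exact_mod_cast h0
    rw [this] at hDm'
    simp at hDm'
  have h2 : sq1 d / D ∈ IntermediateField.adjoin ℚ ({ζ} : Set ℂ) :=
    div_mem h1 (natCast_mem _ _)
  have h3 : (sq1 d / D) ^ 2 = ((m : ℤ) : ℂ) := by
    rw [div_pow, sq1_sq, div_eq_iff (pow_ne_zero 2 hD0)]
    have : ((d + 1 : ℕ) : ℂ) = ((m * D ^ 2 : ℕ) : ℂ) := by rw [hDm']
    push_cast at this ⊢
    exact this
  obtain ⟨c1, c2, -⟩ := Pool.Agent.TH560.RU.conductor hn hζ (m : ℤ)
    (Pool.Agent.TH560.RU.squarefree_int hD) _ h2 h3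
  have hm1 : m = 1 := by
    by_contra hm1
    obtain ⟨q, hq, hqm⟩ := Nat.exists_prime_and_dvd hm1
    have hqd : q ∣ d + 1 := by rw [hDm']; exact Dvd.dvd.mul_right hqm _
    have hqp : q ≠ p := by
      rintro rfl
      have h3 := (Nat.dvd_add_right hpd).1 hqd
      exact hq.one_lt.ne' (Nat.dvd_one.1 h3)
    have hqn : q ∣ 2 * p ^ a := c1 q hq (by exact_mod_cast hqm)
    rcases (Nat.Prime.dvd_mul hq).1 hqn with h3 | h3
    · have hq2 : q = 2 := (Nat.prime_dvd_prime_iff_eq hq Nat.prime_two).1 h3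
      subst hq2
      have h8 : 8 ∣ 2 * p ^ a := c2 (by exact_mod_cast hqm)
      have h4 : 2 ∣ p ^ a := by omega
      have h5 := Nat.prime_two.dvd_of_dvd_pow h4
      exact hqp ((Nat.prime_dvd_prime_iff_eq Nat.prime_two hp).1 h5)
    · have h5 := hq.dvd_of_dvd_pow h3
      exact hqp ((Nat.prime_dvd_prime_iff_eq hq hp).1 h5)
  rw [hDm', hm1, one_mul]
  exact ⟨D, by ring⟩

/-- `√(d+1)` is congruent to the sign `η` -/
theorem eta_sqrt (hx : IsSystem d x) (hn : d + 2 ≤ Fintype.card ι) {p a : ℕ}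
    (hp : p.Prime) (η : ℂ) (hη : η * η = 1)
    (hph : ∀ i j k, i ≠ j → j ≠ k → k ≠ i → (η * ph x i j k) ^ p ^ a = 1)
    {V : ValuationSubring ℂ} (hV : (p : ℂ) ∈ V.nonunits) (hηV : η ∈ V) :
    η * sq1 d - 1 ∈ V.nonunits ∧ p ∣ d := by
  obtain ⟨o⟩ : Nonempty ι := Fintype.card_pos_iff.mp (by omega)
  have h1 := eta_congr hx hn V o η hη hηV (sq1 d) (rank_S_add_le hx o)
    (fun j k h1 h2 h3 => root_sub_one hp hV (hph o j k h1 h2 h3))
  refine ⟨h1, ?_⟩
  apply dvd_of_nonunits hp hV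
  have h9 : (d : ℂ) = (η * sq1 d + 1) * (η * sq1 d - 1) := by
    have := sq1_sq d
    linear_combination -this - sq1 d ^ 2 * hη
  rw [h9]
  exact mul_mem_nonunits (add_mem (mul_mem hηV (sq1_mem V d)) V.one_mem) h1

theorem sign_mem (V : ValuationSubring ℂ) (η : ℤ) : (η : ℂ) ∈ V := intCast_mem V η

/-- phases which are `η` times `p`-power roots of unity -/
theorem eta_main (hx : IsSystem d x) (hd : 3 ≤ d) (hn : d + 2 ≤ Fintype.card ι) {p a : ℕ}
    (hp : p.Prime) (η : ℤ) (hη : η = 1 ∨ η = -1)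
    (hph : ∀ i j k, i ≠ j → j ≠ k → k ≠ i → ((η : ℂ) * ph x i j k) ^ p ^ a = 1)
    (hp2 : p ≠ 2 ∨ 2 * (d : ℝ) - Real.sqrt (2 * d) + 1 ≤ Fintype.card ι) :
    ∃ c : ℕ, d + 1 = c ^ 2 ∧ (p : ℤ) ∣ (c : ℤ) - η := by
  have hη2 : (η : ℂ) * η = 1 := by
    rcases hη with rfl | rfl <;> push_cast <;> ring
  obtain ⟨V, hV⟩ := exists_val p hp
  obtain ⟨h1, hpd⟩ := eta_sqrt hx hn hp (η : ℂ) hη2 hph hV (sign_mem V η)
  have hpos : 0 < 2 * p ^ a := by have := pow_pos hp.pos a; omega
  have hζ := Complex.isPrimitiveRoot_exp (2 * p ^ a) hpos.ne'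
  set ζ := Complex.exp (2 * Real.pi * Complex.I / ((2 * p ^ a : ℕ) : ℂ)) with hζdef
  set K : Subfield ℂ := (IntermediateField.adjoin ℚ ({ζ} : Set ℂ)).toSubfield with hKdef
  have hphK : ∀ i j k, i ≠ j → j ≠ k → k ≠ i → ph x i j k ∈ K := fun i j k h1 h2 h3 => by
    apply Pool.Agent.TH560.RU.mem_adjoin_of_pow hpos hζ
    have h4 := hph i j k h1 h2 h3
    have h5 : ((η : ℂ) * ph x i j k) ^ (2 * p ^ a) = 1 := by
      rw [mul_comm 2, pow_mul, h4, one_pow]
    rw [mul_pow, mul_comm 2] at h5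
    have h6 : (η : ℂ) ^ (p ^ a * 2) = 1 := by
      rw [mul_comm, pow_mul, pow_two, hη2, one_pow]
    rw [h6, one_mul] at h5
    rw [mul_comm 2]; exact h5
  have hsK : sq1 d ∈ K := by
    by_contra hs
    rcases hp2 with hp2 | hbig
    · obtain ⟨o⟩ : Nonempty ι := Fintype.card_pos_iff.mp (by omega)
      have h3 := eta_congr hx hn V o (η : ℂ) hη2 (sign_mem V η) (-sq1 d)
        (rank_conj hx K hs hphK o)
        (fun j k h1 h2 h3 => root_sub_one hp hV (hph o j k h1 h2 h3))
      have h4 := V.nonunits.add_mem h1 h3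
      have h5 : (η : ℂ) * sq1 d - 1 + ((η : ℂ) * -sq1 d - 1) = -((2 : ℕ) : ℂ) := by
        push_cast; ring
      rw [h5] at h4
      have h6 : ((2 : ℕ) : ℂ) ∈ V.nonunits := by
        have := V.nonunits.neg_mem h4
        rwa [neg_neg] at this
      exact hp2 ((Nat.prime_dvd_prime_iff_eq hp Nat.prime_two).mp (dvd_of_nonunits hp hV h6))
    · obtain ⟨h3, h4⟩ := field_bound hx K hs hphK _ rfl
      have h5 := sqrt_bound hd h3 h4
      linarith
  obtain ⟨c, hc⟩ := isSquare_of_mem hp hpd hζ hsK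
  refine ⟨c, by rw [hc]; ring, ?_⟩
  have hcs : sq1 d = (c : ℂ) := by
    unfold sq1
    have h3 : ((d : ℝ) + 1) = (c : ℝ) ^ 2 := by
      have : ((d + 1 : ℕ) : ℝ) = ((c * c : ℕ) : ℝ) := by rw [hc]
      push_cast at this
      rw [this]; ring
    rw [h3, Real.sqrt_sq (by positivity)]
    simp
  rw [hcs] at h1
  have h2 : (c : ℂ) - η ∈ V.nonunits := by
    have h3 : (c : ℂ) - η = (η : ℂ) * ((η : ℂ) * c - 1) := by
      linear_combination -(c : ℂ) * hη2
    rw [h3]
    exact mul_mem_nonunits (sign_mem V η) h1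
  have hc1 : 1 ≤ c := by
    rcases Nat.eq_zero_or_pos c with h0 | h0
    · rw [h0] at hc; omega
    · exact h0
  rcases hη with rfl | rfl
  · have h3 : ((c - 1 : ℕ) : ℂ) ∈ V.nonunits := by
      rw [Nat.cast_sub hc1]
      simpa using h2
    have h4 := dvd_of_nonunits hp hV h3
    have h5 : ((c - 1 : ℕ) : ℤ) = (c : ℤ) - 1 := by omega
    rw [← h5]
    exact_mod_cast h4
  · have h3 : ((c + 1 : ℕ) : ℂ) ∈ V.nonunits := by
      push_cast at h2 ⊢
      have : (c : ℂ) - -1 = c + 1 := by ring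
      rwa [this] at h2
    have h4 := dvd_of_nonunits hp hV h3
    have h5 : ((c + 1 : ℕ) : ℤ) = (c : ℤ) - -1 := by omega
    rw [← h5]
    exact_mod_cast h4

/-- phases which are `2 p ^ a`-th roots of unity, more than half of the lines -/
theorem sq_main (hx : IsSystem d x) (hd : 3 ≤ d) (hn : (d + 1).choose 2 + 2 ≤ Fintype.card ι)
    {p a : ℕ} (hp : p.Prime)
    (hph : ∀ i j k, i ≠ j → j ≠ k → k ≠ i → ph x i j k ^ (2 * p ^ a) = 1) :
    p ∣ d ∧ IsSquare (d + 1) := by
  obtain ⟨V, hV⟩ := exists_val p hp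
  obtain ⟨o⟩ : Nonempty ι := Fintype.card_pos_iff.mp (by omega)
  obtain ⟨j, k, h1, h2, h3, h4, h5⟩ := val_sq hx (by omega) hn V o
  have hpd : p ∣ d := by
    apply dvd_of_nonunits hp hV
    have h6 : ph x o j k ^ 2 - 1 ∈ V.nonunits := root_sub_one hp hV (a := a) (by
      rw [← pow_mul]; exact hph o j k h1 h2 h3)
    have h7 : (d : ℂ) = (d : ℂ) / (ph x o j k ^ 2 - 1) * (ph x o j k ^ 2 - 1) := by
      field_simp [sub_ne_zero.mpr h4]
    rw [h7]
    exact mul_mem_nonunits h5 h6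
  refine ⟨hpd, ?_⟩
  have hpos : 0 < 2 * p ^ a := by have := pow_pos hp.pos a; omega
  have hζ := Complex.isPrimitiveRoot_exp (2 * p ^ a) hpos.ne'
  set ζ := Complex.exp (2 * Real.pi * Complex.I / ((2 * p ^ a : ℕ) : ℂ)) with hζdef
  set K : Subfield ℂ := (IntermediateField.adjoin ℚ ({ζ} : Set ℂ)).toSubfield with hKdef
  have hphK : ∀ i j k, i ≠ j → j ≠ k → k ≠ i → ph x i j k ∈ K := fun i j k h1 h2 h3 =>
    Pool.Agent.TH560.RU.mem_adjoin_of_pow hpos hζ (hph i j k h1 h2 h3)
  have hsK : sq1 d ∈ K := by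
    by_contra hs
    obtain ⟨h3, h4⟩ := field_bound hx K hs hphK _ rfl
    have h5 : 2 * d < (d + 1).choose 2 + 2 := by
      rw [Nat.choose_two_right, Nat.add_sub_cancel]
      have h6 : (d + 1) * d = d * d + d := by ring
      have h7 : 3 * d ≤ d * d := Nat.mul_le_mul_right d hd
      omega
    omega
  exact isSquare_of_mem hp hpd hζ hsK

end Pool.Agent.H61.SIC
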